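import Pool.Agent.Q208.ESN.Sys1
import Pool.Agent.Q182.EA.Mer

/-!
# Project ESN, job SYS
-/

set_option autoImplicit false

namespace Pool.Agent.Q208.ESN

open Pool.Agent.Q161.ESN

theorem sys : S_CNF → S_EVX → S_FRX → S_RES → S_N1F → S_EXC2 → S_SYS :=
  sys0 Pool.Agent.Q182.EA.mer

end Pool.Agent.Q208.ESN
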