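import Pool.Agent.Q161.ESN.Stm2

/-!
# Project ESN, job SYS, part 1: the local data
-/

set_option autoImplicit false
set_option linter.unusedSectionVars false
set_option linter.unusedVariables false

namespace Pool.Agent.Q208.ESN

open NumberField IsDedekindDomain Finset
open Pool.Agent.Q161.ESN
open Pool.Agent.Q51.EL (pr Abv N1)
open Pool.Agent.Q161.EA (Un)

section K

variable {F K : Type} [Field F] [NumberField F] [Field K] [NumberField K] [Algebra F K]
  {V : Type} [AddCommGroup V]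
  [DistribMulAction (K ≃ₐ[F] K) V] {ι : Type} {Lf : ι → Type} [∀ i, Field (Lf i)]
  {em : (i : ι) → Lf i →+* K} {rp : ι → V}

/-- the orbit of `t` -/
noncomputable def orbOf (hR : Rp F Lf em rp) (t : V) : ι := Classical.choose (hR.orb t).exists

theorem orbOf_spec (hR : Rp F Lf em rp) (t : V) : ∃ g : K ≃ₐ[F] K, g • rp (orbOf hR t) = t :=
  Classical.choose_spec (hR.orb t).exists

theorem orbOf_eq (hR : Rp F Lf em rp) {t : V} {i : ι} (h : ∃ g : K ≃ₐ[F] K, g • rp i = t) :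
    orbOf hR t = i := (hR.orb t).unique (orbOf_spec hR t) h

theorem orbOf_rp (hR : Rp F Lf em rp) (i : ι) : orbOf hR (rp i) = i :=
  orbOf_eq hR ⟨1, one_smul _ _⟩

theorem orbOf_smul (hR : Rp F Lf em rp) (g : K ≃ₐ[F] K) (t : V) :
    orbOf hR (g • t) = orbOf hR t := by
  obtain ⟨g', hg'⟩ := orbOf_spec hR t
  exact orbOf_eq hR ⟨g * g', by rw [mul_smul, hg']⟩

theorem orbOf_iff (hR : Rp F Lf em rp) (t : V) (i : ι) :
    orbOf hR t = i ↔ ∃ g : K ≃ₐ[F] K, g • rp i = t := by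
  constructor
  · rintro rfl
    exact orbOf_spec hR t
  · exact orbOf_eq hR

theorem orbOf_orb (hR : Rp F Lf em rp) (s s' : V) :
    orbOf hR s = orbOf hR s' ↔ ∃ g : K ≃ₐ[F] K, g • s = s' := by
  constructor
  · intro h
    obtain ⟨g, hg⟩ := orbOf_spec hR s
    obtain ⟨g', hg'⟩ := orbOf_spec hR s'
    refine ⟨g' * g⁻¹, ?_⟩
    rw [← h] at hg'
    rw [mul_smul, inv_smul_eq_iff.2 hg.symm, hg']
  · rintro ⟨g, rfl⟩
    exact (orbOf_smul hR g s).symm

variable [∀ i, NumberField (Lf i)] {P : Type} [Fintype P]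

/-- the data at the prime `l` -/
structure LD {n : ι → ℕ} (bs : (i : ι) → Module.Basis (Fin (n i)) ℤ (𝓞 (Lf i))) (rp : ι → V)
    (ev : ((i : ι) → 𝓞 (Lf i)) →+* (V → 𝓞 K)) (l : ℕ) (v : P → HeightOneSpectrum (𝓞 F))
    (w : P → HeightOneSpectrum (𝓞 K)) (q : P → ℕ) (φ : P → (K ≃ₐ[F] K))
    (R : Vm n l → (p : P) → V → 𝓞 K ⧸ (w p).asIdeal) : Prop where
  lp : l.Prime
  l2 : l ≠ 2
  frm : Frm l v w q φ
  inj : Function.Injective R
  img : ∀ c : (p : P) → V → 𝓞 K ⧸ (w p).asIdeal,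
    (∃ y, R y = c) ↔ ∀ p s, c p (φ p • s) = c p s ^ q p
  red : ∀ x : Vc n, R (rd n l x) = fun p s =>
    Ideal.Quotient.mk (w p).asIdeal (ev (fun i => ∑ j, x i j • bs i j) s)
  cmp : ∀ (y y' : Vm n l) (i : ι), y i = y' i ↔
    ∀ (p : P) (g : K ≃ₐ[F] K), R y p (g • rp i) = R y' p (g • rp i)

/-- the classes which are units at the orbit `i` -/
def UR {n : ι → ℕ} (rp : ι → V) {w : P → HeightOneSpectrum (𝓞 K)} {l : ℕ}
    (R : Vm n l → (p : P) → V → 𝓞 K ⧸ (w p).asIdeal) (i : ι) : Set (Fin (n i) → ZMod l) :=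
  {u | ∀ y : Vm n l, y i = u → ∀ (p : P) (g : K ≃ₐ[F] K), R y p (g • rp i) ≠ 0}

/-- the allowed classes -/
def OmR [Fintype V] {n : ι → ℕ} (T : Set (V → 𝓞 K)) {w : P → HeightOneSpectrum (𝓞 K)} {l : ℕ}
    (q : P → ℕ) (φ : P → (K ≃ₐ[F] K)) (R : Vm n l → (p : P) → V → 𝓞 K ⧸ (w p).asIdeal) :
    Set (Vm n l) :=
  {y | ∀ p, q p = l → (∀ s, R y p s ≠ 0) ∨ ∃ t, R y p t = 0 ∧ φ p • t = t ∧
    (∀ s, s ≠ t → R y p s ≠ 0) ∧
    ∃ z' ∈ T, z' t ∈ (w p).asIdeal ∧ ∀ χ : V →+ ZMod 2, (∀ s, χ (φ p • s) = χ s) →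
      (∏ s ∈ univ.filter (fun s => χ (s - t) ≠ 0),
        R y p s * Ideal.Quotient.mk (w p).asIdeal (z' s)) ^ ((l - 1) / 2) = 1}

variable {n : ι → ℕ} {bs : (i : ι) → Module.Basis (Fin (n i)) ℤ (𝓞 (Lf i))}
    {ev : ((i : ι) → 𝓞 (Lf i)) →+* (V → 𝓞 K)} {l : ℕ} {v : P → HeightOneSpectrum (𝓞 F)}
    {w : P → HeightOneSpectrum (𝓞 K)} {q : P → ℕ} {φ : P → (K ≃ₐ[F] K)}
    {R : Vm n l → (p : P) → V → 𝓞 K ⧸ (w p).asIdeal}

theorem LD.U_ne (h : LD bs rp ev l v w q φ R) {i : ι} {y : Vm n l} (hy : y i ∈ UR (F := F) rp R i)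
    (p : P) (g : K ≃ₐ[F] K) : R y p (g • rp i) ≠ 0 := hy y rfl p g

theorem LD.U_ne' (h : LD bs rp ev l v w q φ R) (hR : Rp F Lf em rp) {y : Vm n l} {s : V}
    (hy : y (orbOf hR s) ∈ UR (F := F) rp R (orbOf hR s)) (p : P) : R y p s ≠ 0 := by
  obtain ⟨g, hg⟩ := orbOf_spec hR s
  have := h.U_ne hy p g
  rwa [hg] at this

theorem LD.unit [Fintype V] (h : LD bs rp ev l v w q φ R) (hR : Rp F Lf em rp)
    (T : Set (V → 𝓞 K)) (y : Vm n l) (hy : ∀ i, y i ∈ UR (F := F) rp R i) : y ∈ OmR T q φ R := by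
  intro p _
  left
  intro s
  exact h.U_ne' hR (hy _) p

/-- the classes of integral vectors -/
theorem rd_surj {n : ι → ℕ} {l : ℕ} (hl : l ≠ 0) (y : Vm n l) : ∃ x : Vc n, rd n l x = y := by
  have : NeZero l := ⟨hl⟩
  refine ⟨fun i j => ((y i j).val : ℤ), ?_⟩
  funext i j
  simp [rd]

theorem LD.add (h : LD bs rp ev l v w q φ R) (y y' : Vm n l) (p : P) (s : V) :
    R (y + y') p s = R y p s + R y' p s := by
  obtain ⟨x, rfl⟩ := rd_surj h.lp.ne_zero y
  obtain ⟨x', rfl⟩ := rd_surj h.lp.ne_zero y'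
  have e1 : rd n l x + rd n l x' = rd n l (x + x') := by
    funext i j
    simp [rd]
  rw [e1, h.red, h.red, h.red]
  have e2 : (fun i => ∑ j, (x + x') i j • bs i j) =
      (fun i => ∑ j, x i j • bs i j) + (fun i => ∑ j, x' i j • bs i j) := by
    funext i
    simp only [Pi.add_apply, add_smul, Finset.sum_add_distrib]
  simp only
  rw [e2, map_add]
  simp only [Pi.add_apply, map_add]

theorem LD.zero (h : LD bs rp ev l v w q φ R) (p : P) (s : V) : R 0 p s = 0 := by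
  have := h.add 0 0 p s
  rw [add_zero] at this
  exact (left_eq_add.1 this)

/-- the coordinates of `1` -/
theorem LD.one (h : LD bs rp ev l v w q φ R) : ∃ y : Vm n l, ∀ p s, R y p s = 1 := by
  refine ⟨rd n l (fun i j => (bs i).repr 1 j), ?_⟩
  intro p s
  rw [h.red]
  have e1 : (fun i => ∑ j, ((bs i).repr 1 j) • bs i j) = (1 : (i : ι) → 𝓞 (Lf i)) := by
    funext i
    rw [(bs i).sum_repr]
    rfl
  simp only [e1, map_one, Pi.one_apply]

theorem nzq (u : HeightOneSpectrum (𝓞 K)) : (1 : 𝓞 K ⧸ u.asIdeal) ≠ 0 := by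
  have : Nontrivial (𝓞 K ⧸ u.asIdeal) := Ideal.Quotient.nontrivial_iff.2 u.isPrime.ne_top
  exact one_ne_zero

/-- the number of the primes above `l` -/
theorem LD.cardP (h : LD bs rp ev l v w q φ R) : Fintype.card P ≤ Module.finrank ℚ F := by
  have h1 : l ^ Fintype.card P ≤ l ^ Module.finrank ℚ F := by
    rw [← h.frm.prod, ← Finset.card_univ, ← Finset.prod_const]
    refine Finset.prod_le_prod' fun p _ => ?_
    rcases h.frm.dich p with h2 | h2
    · exact h2.ge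
    · refine le_trans ?_ h2
      rw [pow_two]
      exact Nat.le_mul_self l
  exact (Nat.pow_le_pow_iff_right h.lp.one_lt).1 h1

theorem LD.abw (h : LD bs rp ev l v w q φ R) (p : P) : Abv (w p) l := by
  have h1 : Abv (v p) l := (h.frm.abv (v p)).2 ⟨p, rfl⟩
  have h2 := (h.frm.ov p (l : 𝓞 F)).1 h1
  rw [map_natCast] at h2
  exact h2

theorem LD.cardw (h : LD bs rp ev l v w q φ R) (p : P) : Nat.card (𝓞 K ⧸ (w p).asIdeal) ≠ 0 := by
  obtain ⟨f, hf, hc, -⟩ := h.frm.ord p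
  rw [hc]
  refine pow_ne_zero _ ?_
  rcases h.frm.dich p with h2 | h2
  · rw [h2]
    exact h.lp.ne_zero
  · have := h.lp.pos
    have h3 : 0 < l ^ 2 := by positivity
    omega

theorem LD.fin (h : LD bs rp ev l v w q φ R) (p : P) : Finite (𝓞 K ⧸ (w p).asIdeal) :=
  Nat.finite_of_card_ne_zero (h.cardw p)

open Classical in
theorem LD.cU [Fintype V] [Fintype ι] [DecidableEq ι] (h : LD bs rp ev l v w q φ R)
    (hR : Rp F Lf em rp) (i : ι) :
    (((UR (F := F) rp R i)ᶜ.ncard : ℕ) : ℝ) * l ≤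
      ((Module.finrank ℚ F : ℝ) * Fintype.card V) * (l : ℝ) ^ n i := by
  have : NeZero l := ⟨h.lp.ne_zero⟩
  have : ∀ p, Finite (𝓞 K ⧸ (w p).asIdeal) := fun p => h.fin p
  -- the additive maps
  let lam : (p : P) → V → (Fin (n i) → ZMod l) →+ 𝓞 K ⧸ (w p).asIdeal := fun p s =>
    { toFun := fun u => R (Pi.single i u) p s
      map_zero' := by
        rw [Pi.single_zero, h.zero]
      map_add' := by
        intro u v
        rw [Pi.single_add, h.add] }
  have hker : ∀ (p : P) (g : K ≃ₐ[F] K), Nat.card (lam p (g • rp i)).ker * l ≤ l ^ n i := by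
    intro p g
    obtain ⟨y1, hy1⟩ := h.one
    have h1 : lam p (g • rp i) (y1 i) = 1 := by
      show R (Pi.single i (y1 i)) p (g • rp i) = 1
      rw [(h.cmp (Pi.single i (y1 i)) y1 i).1 (by simp) p g, hy1]
    have h2 : Nat.card (lam p (g • rp i)).ker * Nat.card (lam p (g • rp i)).range = l ^ n i := by
      have h3 := AddSubgroup.card_eq_card_quotient_mul_card_addSubgroup (lam p (g • rp i)).ker
      have h4 : Nat.card (Fin (n i) → ZMod l) = l ^ n i := by simp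
      rw [h4] at h3
      rw [h3, mul_comm]
      congr 1
      exact (Nat.card_congr (QuotientAddGroup.quotientKerEquivRange (lam p (g • rp i))).toEquiv).symm
    have h5 : l ∣ Nat.card (lam p (g • rp i)).range := by
      have h6 : Nat.card (lam p (g • rp i)).range ∣ l ^ n i := Dvd.intro_left _ h2
      obtain ⟨m, hm, hm2⟩ := (Nat.dvd_prime_pow h.lp).1 h6
      rcases Nat.eq_zero_or_pos m with h7 | h7
      · exfalso
        rw [h7, pow_zero] at hm2
        have h8 := (Nat.card_eq_one_iff_unique.1 hm2).1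
        have h9 := @Subsingleton.elim _ h8 ⟨lam p (g • rp i) (y1 i), ⟨_, rfl⟩⟩ 0
        have h10 : lam p (g • rp i) (y1 i) = 0 := congrArg Subtype.val h9
        rw [h1] at h10
        exact nzq _ h10
      · rw [hm2]
        exact dvd_pow_self l (by omega)
    have h11 : l ≤ Nat.card (lam p (g • rp i)).range := Nat.le_of_dvd Nat.card_pos h5
    calc Nat.card (lam p (g • rp i)).ker * l ≤
        Nat.card (lam p (g • rp i)).ker * Nat.card (lam p (g • rp i)).range :=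
          Nat.mul_le_mul_left _ h11
      _ = l ^ n i := h2
  obtain ⟨J, hJ⟩ : ∃ J : Finset (P × V),
      J = univ.filter (fun x : P × V => ∃ g : K ≃ₐ[F] K, g • rp i = x.2) := ⟨_, rfl⟩
  have hsub : (UR (F := F) rp R i)ᶜ ⊆ ⋃ x ∈ J,
      ((lam x.1 x.2).ker : Set (Fin (n i) → ZMod l)) := by
    intro u hu
    simp only [UR, Set.mem_compl_iff, Set.mem_ofPred_eq, not_forall, not_not] at hu
    obtain ⟨y, hy, p, g, hg⟩ := hu
    simp only [Set.mem_iUnion]
    refine ⟨(p, g • rp i), by rw [hJ]; simp, ?_⟩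
    show R (Pi.single i u) p (g • rp i) = 0
    rw [(h.cmp (Pi.single i u) y i).1 (by simp [hy]) p g, hg]
  have h12 : (UR (F := F) rp R i)ᶜ.ncard ≤ ∑ x ∈ J,
      ((lam x.1 x.2).ker : Set (Fin (n i) → ZMod l)).ncard :=
    (Set.ncard_le_ncard hsub (Set.toFinite _)).trans (Finset.set_ncard_biUnion_le _ _)
  have h13 : (UR (F := F) rp R i)ᶜ.ncard * l ≤
      (Module.finrank ℚ F * Fintype.card V) * l ^ n i := by
    calc (UR (F := F) rp R i)ᶜ.ncard * l ≤ (∑ x ∈ J,
      ((lam x.1 x.2).ker : Set (Fin (n i) → ZMod l)).ncard) * l := Nat.mul_le_mul_right _ h12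
      _ = ∑ x ∈ J,
        ((lam x.1 x.2).ker : Set (Fin (n i) → ZMod l)).ncard * l := Finset.sum_mul _ _ _
      _ ≤ ∑ x ∈ J, l ^ n i := by
          refine Finset.sum_le_sum fun x hx => ?_
          rw [hJ] at hx
          obtain ⟨g, hg⟩ := (mem_filter.1 hx).2
          rw [← hg]
          exact hker x.1 g
      _ ≤ (Module.finrank ℚ F * Fintype.card V) * l ^ n i := by
          rw [Finset.sum_const, smul_eq_mul]
          refine Nat.mul_le_mul_right _ ?_
          refine (Finset.card_le_univ _).trans ?_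
          rw [Fintype.card_prod]
          exact Nat.mul_le_mul_right _ h.cardP
  exact_mod_cast h13

end K

end Pool.Agent.Q208.ESN
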