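import Pool.Agent.Q208.ESN.Loc

/-!
# Project ESN, job SYS, part 2: the local densities
-/

set_option autoImplicit false
set_option linter.unusedSectionVars false
set_option linter.unusedVariables false
set_option linter.style.haveILetI false

namespace Pool.Agent.Q208.ESN

open NumberField IsDedekindDomain Finset
open Pool.Agent.Q161.ESN
open Pool.Agent.Q51.EL (pr Abv N1)
open Pool.Agent.Q161.EA (Un)

section K

variable {F K : Type} [Field F] [NumberField F] [Field K] [NumberField K] [Algebra F K]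
  {V : Type} [AddCommGroup V]
  [DistribMulAction (K ≃ₐ[F] K) V] {ι : Type} {Lf : ι → Type} [∀ i, Field (Lf i)]
  {em : (i : ι) → Lf i →+* K} {rp : ι → V} [∀ i, NumberField (Lf i)] {P : Type} [Fintype P]
  {n : ι → ℕ} {bs : (i : ι) → Module.Basis (Fin (n i)) ℤ (𝓞 (Lf i))}
    {ev : ((i : ι) → 𝓞 (Lf i)) →+* (V → 𝓞 K)} {l : ℕ} {v : P → HeightOneSpectrum (𝓞 F)}
    {w : P → HeightOneSpectrum (𝓞 K)} {q : P → ℕ} {φ : P → (K ≃ₐ[F] K)}
    {R : Vm n l → (p : P) → V → 𝓞 K ⧸ (w p).asIdeal}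

theorem ev_val (hev : IsEv F em rp ev) (x : (i : ι) → 𝓞 (Lf i)) (g : K ≃ₐ[F] K) (i : ι) :
    ev x (g • rp i) = RingOfIntegers.mapRingHom (((g : K →ₐ[F] K) : K →+* K).comp (em i)) (x i) := by
  apply RingOfIntegers.ext
  rw [hev.eqv x g (rp i), hev.val x i]
  rfl

theorem exists_prm {L : Type} [Field L] [NumberField L] (θ : 𝓞 L →+* 𝓞 K) {l : ℕ} (hl : l ≠ 0)
    {w : HeightOneSpectrum (𝓞 K)}
    (hab : Abv w l) : ∃ v : HeightOneSpectrum (𝓞 L), Abv v l ∧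
      ∀ x, x ∈ v.asIdeal ↔ θ x ∈ w.asIdeal := by
  have := w.isPrime
  refine ⟨⟨w.asIdeal.comap θ, Ideal.comap_isPrime _ _, ?_⟩, ?_, ?_⟩
  · intro hbot
    have h1 : (l : 𝓞 L) ∈ w.asIdeal.comap θ := by
      rw [Ideal.mem_comap, map_natCast]
      exact hab
    rw [hbot, Ideal.mem_bot] at h1
    exact hl (by exact_mod_cast h1)
  · show (l : 𝓞 L) ∈ w.asIdeal.comap θ
    rw [Ideal.mem_comap, map_natCast]
    exact hab
  · intro x
    exact Ideal.mem_comap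

open Classical in
theorem LD.nm (h : LD bs rp ev l v w q φ R) (hev : IsEv F em rp ev) (i : ι) (x : Fin (n i) → ℤ)
    (hx : (fun j => (x j : ZMod l)) ∉ UR (F := F) rp R i) :
    ∃ v : HeightOneSpectrum (𝓞 (Lf i)), Abv v l ∧ (∑ j, x j • bs i j) ∈ v.asIdeal := by
  simp only [UR, Set.mem_ofPred_eq, not_forall, not_not] at hx
  obtain ⟨y, hy, p, g, hg⟩ := hx
  have h1 : R (rd n l (Pi.single i x)) p (g • rp i) = 0 := by
    rw [(h.cmp (rd n l (Pi.single i x)) y i).1 (by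
      rw [hy]
      funext j
      simp [rd]) p g, hg]
  rw [h.red] at h1
  have h2 := Ideal.Quotient.eq_zero_iff_mem.1 h1
  rw [ev_val hev] at h2
  obtain ⟨v, hv, hv2⟩ := exists_prm (w := w p)
    (RingOfIntegers.mapRingHom (((g : K →ₐ[F] K) : K →+* K).comp (em i))) h.lp.ne_zero (h.abw p)
  refine ⟨v, hv, ?_⟩
  rw [hv2]
  simpa using h2

theorem LD.mem_iff (h : LD bs rp ev l v w q φ R) (x : Vc n) (p : P) (s : V) :
    R (rd n l x) p s = 0 ↔ ev (fun i => ∑ j, x i j • bs i j) s ∈ (w p).asIdeal := by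
  rw [h.red]
  exact Ideal.Quotient.eq_zero_iff_mem

theorem LD.memT [Fintype V] (h : LD bs rp ev l v w q φ R) {T : Set (V → 𝓞 K)}
    (hloc : ∀ p, q p = l → Loc (w p) l (φ p) T) (x : Vc n)
    (hx : ev (fun i => ∑ j, x i j • bs i j) ∈ T) : rd n l x ∈ OmR T q φ R := by
  intro p hp
  by_cases h0 : ∀ s, R (rd n l x) p s ≠ 0
  · left
    exact h0
  · right
    push Not at h0
    obtain ⟨t, ht⟩ := h0
    have ht' := (h.mem_iff x p t).1 ht
    obtain ⟨h1, h2⟩ := (hloc p hp).one _ hx t ht'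
    refine ⟨t, ht, h1, fun s hs hcon => h2 s hs ((h.mem_iff x p s).1 hcon), _, hx, ht', ?_⟩
    intro χ hχ
    have h3 := (hloc p hp).two _ hx _ hx t ht' ht' χ hχ
    have h4 := Ideal.Quotient.eq_zero_iff_mem.2 h3
    rw [map_sub, map_one, map_pow, map_prod, sub_eq_zero] at h4
    rw [← h4]
    congr 1
    refine Finset.prod_congr rfl fun s _ => ?_
    rw [map_mul, h.red]

/-- the field -/
noncomputable abbrev fld (w : HeightOneSpectrum (𝓞 K)) : Field (𝓞 K ⧸ w.asIdeal) :=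
  haveI := w.isMaximal
  Ideal.Quotient.field w.asIdeal

theorem LD.xi [Fintype V] (h : LD bs rp ev l v w q φ R) {T : Set (V → 𝓞 K)}
    (hloc : ∀ p, q p = l → Loc (w p) l (φ p) T) (p : P) (hp : q p = l) (t : V) :
    ∃ ξ : (V →+ ZMod 2) → 𝓞 K ⧸ (w p).asIdeal, ∀ y ∈ OmR T q φ R, R y p t = 0 →
      ∀ χ : V →+ ZMod 2, (∀ s, χ (φ p • s) = χ s) →
        (∏ s ∈ univ.filter (fun s => χ (s - t) ≠ 0), R y p s) ^ ((l-1)/2) = ξ χ := by
  letI := fld (w p)
  by_cases hz : ∃ z0 ∈ T, z0 t ∈ (w p).asIdeal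
  · obtain ⟨z0, hz0, hz1⟩ := hz
    refine ⟨fun χ => (∏ s ∈ univ.filter (fun s => χ (s - t) ≠ 0),
      Ideal.Quotient.mk (w p).asIdeal (z0 s)) ^ ((l-1)/2), ?_⟩
    intro y hy hyt χ hχ
    rcases hy p hp with hy | ⟨t', ht0, ht1, ht2, z', hz', hz2, hz3⟩
    · exact absurd hyt (hy t)
    · have htt : t = t' := by
        by_contra hne
        exact ht2 t hne hyt
      subst htt
      have e1 := hz3 χ hχ
      have e2 := (hloc p hp).two z0 hz0 z' hz' t hz1 hz2 χ hχ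
      have e3 := Ideal.Quotient.eq_zero_iff_mem.2 e2
      rw [map_sub, map_one, map_pow, map_prod, sub_eq_zero] at e3
      simp only [map_mul] at e3
      rw [Finset.prod_mul_distrib, mul_pow] at e1 e3
      have e4 : (∏ s ∈ univ.filter (fun s => χ (s - t) ≠ 0),
        Ideal.Quotient.mk (w p).asIdeal (z' s)) ^ ((l-1)/2) ≠ 0 := by
        intro hcon
        rw [hcon, mul_zero] at e1
        exact nzq _ e1.symm
      exact mul_right_cancel₀ e4 (e1.trans e3.symm)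
  · refine ⟨fun _ => 0, ?_⟩
    intro y hy hyt χ hχ
    exfalso
    rcases hy p hp with hy | ⟨t', ht0, ht1, ht2, z', hz', hz2, hz3⟩
    · exact absurd hyt (hy t)
    · have htt : t = t' := by
        by_contra hne
        exact ht2 t hne hyt
      subst htt
      exact hz ⟨z', hz', hz2⟩

theorem LD.toAb [Fintype V] (h : LD bs rp ev l v w q φ R)
    (hR : Rp F Lf em rp) {T : Set (V → 𝓞 K)}
    (hloc : ∀ p, q p = l → Loc (w p) l (φ p) T)
    (hn : ∀ i, n i = Module.finrank ℚ F * {t : V | ∃ g : K ≃ₐ[F] K, g • rp i = t}.ncard) :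
    @AbF P _ (fun p => 𝓞 K ⧸ (w p).asIdeal) (fun p => fld (w p)) V (K ≃ₐ[F] K) ι _ _ _ _
      n l (Module.finrank ℚ F) q φ (orbOf hR) R (OmR T q φ R) := by
  letI : ∀ p, Field (𝓞 K ⧸ (w p).asIdeal) := fun p => fld (w p)
  exact
  { lp := h.lp
    l2 := h.l2
    d0 := Module.finrank_pos
    inj := h.inj
    eqf := fun y p s => ((h.img (R y)).1 ⟨y, rfl⟩ p s)
    cmp := by
      intro y y' s hy p
      obtain ⟨g, hg⟩ := orbOf_spec hR s
      have := (h.cmp y y' _).1 hy p g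
      rwa [hg] at this
    nn := by
      classical
      intro i
      rw [hn i, ← Set.ncard_coe_finset]
      congr 2
      ext s
      simp [orbOf_iff hR]
    sur := fun i => ⟨rp i, orbOf_rp hR i⟩
    orbG := orbOf_orb hR
    prod := h.frm.prod
    dich := h.frm.dich
    fin := h.frm.ord
    om := by
      intro y hy p hp t ht
      rcases hy p hp with hy | ⟨t', ht0, ht1, ht2, z', hz', hz2, hz3⟩
      · exact absurd ht (hy t)
      · have htt : t = t' := by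
          by_contra hne
          exact ht2 t hne ht
        subst htt
        exact ⟨ht1, ht2⟩
    xi := by
      intro p hp t
      obtain ⟨ξ, hξ⟩ := h.xi hloc p hp t
      refine ⟨ξ, ?_⟩
      intro y hy hyt χ hχ
      convert hξ y hy hyt χ hχ }

open Classical in
/-- `N1` as a number of fixed points -/
theorem sumN1 [Fintype V] (hR : Rp F Lf em rp)
    (hn1 : ∀ i, N1 (Lf i) l = ∑ p ∈ univ.filter (fun p => q p = l),
      {s : V | (∃ g : K ≃ₐ[F] K, g • rp i = s) ∧ φ p • s = s}.ncard)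
    (hn0 : N1 F l = (univ.filter (fun p => q p = l)).card)
    (S : Finset ι) :
    (∑ i ∈ S, (N1 (Lf i) l : ℝ)) - N1 F l =
      ∑ p ∈ univ.filter (fun p => q p = l),
        (((univ.filter (fun s : V => orbOf hR s ∈ S ∧ φ p • s = s)).card : ℝ) - 1) := by
  have h1 : ∀ p : P, ((univ.filter (fun s : V => orbOf hR s ∈ S ∧ φ p • s = s)).card : ℝ) =
      ∑ i ∈ S, (({s : V | (∃ g : K ≃ₐ[F] K, g • rp i = s) ∧ φ p • s = s}.ncard : ℕ) : ℝ) := by
    intro p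
    have h2 : (univ.filter (fun s : V => orbOf hR s ∈ S ∧ φ p • s = s)).card =
        ∑ i ∈ S, {s : V | (∃ g : K ≃ₐ[F] K, g • rp i = s) ∧ φ p • s = s}.ncard := by
      rw [Finset.card_eq_sum_card_fiberwise (f := orbOf hR) (t := S) (by
        intro s hs
        simp only [coe_filter, mem_univ, true_and, Set.mem_ofPred_eq] at hs
        exact hs.1)]
      refine Finset.sum_congr rfl fun i hi => ?_
      rw [← Set.ncard_coe_finset]
      congr 1
      ext s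
      simp only [coe_filter, mem_filter, mem_univ, true_and, Set.mem_ofPred_eq]
      rw [← orbOf_iff hR s i]
      constructor
      · rintro ⟨⟨_, h2⟩, h3⟩
        exact ⟨h3, h2⟩
      · rintro ⟨h2, h3⟩
        exact ⟨⟨h2 ▸ hi, h3⟩, h2⟩
    rw [h2]
    push_cast
    rfl
  rw [Finset.sum_sub_distrib, hn0, Finset.sum_const, nsmul_eq_mul, mul_one]
  congr 1
  simp_rw [h1]
  rw [Finset.sum_comm]
  refine Finset.sum_congr rfl fun i _ => ?_
  rw [hn1 i]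
  push_cast
  rfl

/-- the constants -/
def Cst (V G : Type) [AddCommGroup V] [Fintype V] [Group G] [DistribMulAction G V] (d : ℕ)
    (A κ : ℝ) : Prop := ∀ (P ι : Type) [Fintype P] [Fintype ι] (k : P → Type) [∀ p, Field (k p)]
    (n : ι → ℕ) (l : ℕ) (q : P → ℕ) (φ : P → G) (orb : V → ι) (R : Vm n l → (p : P) → V → k p)
    (Om : Set (Vm n l)), AbF n l d q φ orb R Om →
  ∀ (S : Finset ι) (z : Vm n l), S.Nonempty → (∀ s, orb s ∉ S → ∀ p, R z p s ≠ 0) → ∀ X : ℝ,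
    X = ∑ p ∈ univ.filter (fun p => q p = l),
        ((Nat.card {s : V // orb s ∈ S ∧ φ p • s = s} : ℝ) - 1) →
    ((({y | y ∈ Om ∧ ∀ i, i ∉ S → y i = z i}.ncard : ℕ) : ℝ) / (l : ℝ) ^ (∑ i ∈ S, n i) ≤
      1 - X / l + A / (l : ℝ) ^ 2) ∧
    ((∀ p, q p = l ∧ φ p = 1) → ¬ IsSub {s : V | orb s ∈ S} →
      (({y | y ∈ Om ∧ ∀ i, i ∉ S → y i = z i}.ncard : ℕ) : ℝ) / (l : ℝ) ^ (∑ i ∈ S, n i) ≤
      1 - (X + κ) / l + A / (l : ℝ) ^ 2) ∧
    ((∀ p, q p = l ∧ φ p = 1) → IsSub {s : V | orb s ∈ S} → ∀ p0 : P,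
      (∀ y ∈ Om, (∀ i, i ∉ S → y i = z i) → R y p0 0 ≠ 0) →
      (({y | y ∈ Om ∧ ∀ i, i ∉ S → y i = z i}.ncard : ℕ) : ℝ) / (l : ℝ) ^ (∑ i ∈ S, n i) ≤
      1 - (X + κ) / l + A / (l : ℝ) ^ 2)

theorem exists_cst (h : S_CNF) (V G : Type) [AddCommGroup V] [Fintype V] [Group G]
    [DistribMulAction G V] (h2 : ∀ v : V, v + v = 0) (hs : Semi G V)
    (hi : ∀ v : V, (∀ g : G, g • v = v) → v = 0) (d : ℕ) : ∃ A κ : ℝ, 0 < κ ∧ Cst V G d A κ := by
  classical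
  obtain ⟨A, κ, hκ, hA⟩ := h V G h2 hs hi d
  refine ⟨A, κ, hκ, ?_⟩
  intro P ι _ _ k _ n l q φ orb R Om hAb S z hS hz X hX
  have := hA P ι k n l q φ orb R Om hAb S z hS hz
  have hX2 : X = ∑ p ∈ univ.filter (fun p => q p = l),
        (((univ.filter (fun s : V => orb s ∈ S ∧ φ p • s = s)).card : ℝ) - 1) := by
    rw [hX]
    refine Finset.sum_congr rfl fun p _ => ?_
    rw [Nat.card_eq_fintype_card, Fintype.card_subtype]
  rw [hX2]
  convert this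

theorem LD.dens [Fintype V] [Fintype ι] {A κ : ℝ}
    (hC : Cst V (K ≃ₐ[F] K) (Module.finrank ℚ F) A κ)
    (h : LD bs rp ev l v w q φ R) (hR : Rp F Lf em rp) {T : Set (V → 𝓞 K)}
    (hloc : ∀ p, q p = l → Loc (w p) l (φ p) T)
    (hn : ∀ i, n i = Module.finrank ℚ F * {t : V | ∃ g : K ≃ₐ[F] K, g • rp i = t}.ncard)
    (hn1 : ∀ i, N1 (Lf i) l = ∑ p ∈ univ.filter (fun p => q p = l),
      {s : V | (∃ g : K ≃ₐ[F] K, g • rp i = s) ∧ φ p • s = s}.ncard)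
    (S : Finset ι) (hS : S.Nonempty) (z : Vm n l) (hz : ∀ i, i ∉ S → z i ∈ UR (F := F) rp R i) :
    (({y | y ∈ OmR T q φ R ∧ ∀ i, i ∉ S → y i = z i}.ncard : ℕ) : ℝ) / (l : ℝ) ^ (∑ i ∈ S, n i) ≤
      1 - ((∑ i ∈ S, (N1 (Lf i) l : ℝ)) - N1 F l) / l + A / (l : ℝ) ^ 2 ∧
    ((∀ p, q p = l ∧ φ p = 1) → ¬ IsSub {s : V | orbOf hR s ∈ S} →
      (({y | y ∈ OmR T q φ R ∧ ∀ i, i ∉ S → y i = z i}.ncard : ℕ) : ℝ) /
        (l : ℝ) ^ (∑ i ∈ S, n i) ≤
      1 - ((∑ i ∈ S, (N1 (Lf i) l : ℝ)) - N1 F l + κ) / l + A / (l : ℝ) ^ 2) ∧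
    ((∀ p, q p = l ∧ φ p = 1) → IsSub {s : V | orbOf hR s ∈ S} → ∀ p0 : P,
      (∀ y ∈ OmR T q φ R, (∀ i, i ∉ S → y i = z i) → R y p0 0 ≠ 0) →
      (({y | y ∈ OmR T q φ R ∧ ∀ i, i ∉ S → y i = z i}.ncard : ℕ) : ℝ) /
        (l : ℝ) ^ (∑ i ∈ S, n i) ≤
      1 - ((∑ i ∈ S, (N1 (Lf i) l : ℝ)) - N1 F l + κ) / l + A / (l : ℝ) ^ 2) := by
  classical
  letI : ∀ p, Field (𝓞 K ⧸ (w p).asIdeal) := fun p => fld (w p)
  have hAb := h.toAb hR hloc hn
  have hz' : ∀ s, orbOf hR s ∉ S → ∀ p, R z p s ≠ 0 := fun s hs p => h.U_ne' hR (hz _ hs) p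
  refine hC P ι (fun p => 𝓞 K ⧸ (w p).asIdeal) n l q φ (orbOf hR) R (OmR T q φ R) hAb S z hS hz' _ ?_
  rw [sumN1 hR hn1 h.frm.n1 S]
  refine Finset.sum_congr rfl fun p _ => ?_
  rw [Nat.card_eq_fintype_card, Fintype.card_subtype]

end K

end Pool.Agent.Q208.ESN
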