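import Pool.Agent.Q208.ESN.Loc3

/-!
# Project ESN, job SYS, part 5: the local properties
-/

set_option autoImplicit false
set_option linter.unusedSectionVars false
set_option linter.unusedVariables false
set_option linter.style.haveILetI false

namespace Pool.Agent.Q208.ESN

open NumberField IsDedekindDomain Finset
open Pool.Agent.Q161.ESN
open Pool.Agent.Q51.EL (pr Abv N1)
open Pool.Agent.Q161.EA (Un)

section K

variable {F K : Type} [Field F] [NumberField F] [Field K] [NumberField K] [Algebra F K]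
  {V : Type} [AddCommGroup V]
  [DistribMulAction (K ≃ₐ[F] K) V] {ι : Type} {Lf : ι → Type} [∀ i, Field (Lf i)]
  {em : (i : ι) → Lf i →+* K} {rp : ι → V} [∀ i, NumberField (Lf i)]

/-- the local properties of the sieve at `l` -/
structure LP [Fintype V] [DecidableEq ι] (hR : Rp F Lf em rp) {n : ι → ℕ}
    (bs : (i : ι) → Module.Basis (Fin (n i)) ℤ (𝓞 (Lf i)))
    (ev : ((i : ι) → 𝓞 (Lf i)) →+* (V → 𝓞 K)) (T : Set (V → 𝓞 K)) (A κ : ℝ) (l : ℕ)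
    (Om : Set (Vm n l)) (U : (i : ι) → Set (Fin (n i) → ZMod l)) (I : Finset ι → Vm n l → Prop) :
    Prop where
  unit : ∀ y : Vm n l, (∀ i, y i ∈ U i) → y ∈ Om
  cU : ∀ i, (((U i)ᶜ.ncard : ℕ) : ℝ) * l ≤ ((Module.finrank ℚ F : ℝ) * Fintype.card V) * (l : ℝ) ^ n i
  nm : ∀ (i : ι) (x : Fin (n i) → ℤ), (fun j => (x j : ZMod l)) ∉ U i →
    ∃ v : HeightOneSpectrum (𝓞 (Lf i)), Abv v l ∧ (∑ j, x j • bs i j) ∈ v.asIdeal
  n1 : ∀ i, (N1 (Lf i) l : ℝ) ≤ (Module.finrank ℚ F : ℝ) * Fintype.card V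
  n0 : (N1 F l : ℝ) ≤ Module.finrank ℚ F
  split : N1 K l ≠ Module.finrank ℚ K → N1 K l = 0
  dens : ∀ S : Finset ι, S.Nonempty → ∀ z : Vm n l, (∀ i, i ∉ S → z i ∈ U i) →
    (({y | y ∈ Om ∧ ∀ i, i ∉ S → y i = z i}.ncard : ℕ) : ℝ) / (l : ℝ) ^ (∑ i ∈ S, n i) ≤
      1 - ((∑ i ∈ S, (N1 (Lf i) l : ℝ)) - N1 F l) / l + A / (l : ℝ) ^ 2
  good : N1 K l = Module.finrank ℚ K → ∀ S : Finset ι, S.Nonempty →
    ¬ IsSub {s : V | orbOf hR s ∈ S} → ∀ z : Vm n l, (∀ i, i ∉ S → z i ∈ U i) →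
    (({y | y ∈ Om ∧ ∀ i, i ∉ S → y i = z i}.ncard : ℕ) : ℝ) / (l : ℝ) ^ (∑ i ∈ S, n i) ≤
      1 - ((∑ i ∈ S, (N1 (Lf i) l : ℝ)) - N1 F l + κ) / l + A / (l : ℝ) ^ 2
  bad : N1 K l = Module.finrank ℚ K → ∀ S : Finset ι, S.Nonempty →
    IsSub {s : V | orbOf hR s ∈ S} → ∀ z : Vm n l, (∀ i, i ∉ S → z i ∈ U i) → I S z →
    (({y | y ∈ Om ∧ ∀ i, i ∉ S → y i = z i}.ncard : ℕ) : ℝ) / (l : ℝ) ^ (∑ i ∈ S, n i) ≤
      1 - ((∑ i ∈ S, (N1 (Lf i) l : ℝ)) - N1 F l + κ) / l + A / (l : ℝ) ^ 2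
  mem : ∀ x : Vc n, ev (fun i => ∑ j, x i j • bs i j) ∈ T → rd n l x ∈ Om
  chr : N1 K l = Module.finrank ℚ K → ∀ (S : Finset ι) (i0 : ι), i0 ∉ S → ∀ χ : V →+ ZMod 2,
    (∀ s, orbOf hR s ∈ S → χ s = 0) → χ (rp i0) ≠ 0 →
    ∃ ψ : 𝓞 (Lf i0) → ℝ, (∀ α β, ψ (α * β) = ψ α * ψ β) ∧ (∀ α, |ψ α| ≤ 1) ∧
      (∀ α β, (l : 𝓞 (Lf i0)) ∣ α - β → ψ α = ψ β) ∧
      (∃ u w' : 𝓞 (Lf i0), (l : 𝓞 (Lf i0)) ∣ u * w' - 1 ∧ ψ u = -1) ∧
      (∀ α, Un l α → ψ α = 1 ∨ ψ α = -1) ∧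
      ∀ z : Vc n, ∃ e : ℝ, (e = 1 ∨ e = -1) ∧ ∀ y : Fin (n i0) → ℤ, ψ (∑ j, y j • bs i0 j) = -e →
        I S (rd n l (Function.update z i0 y)) ∨
        ∃ i, i ∉ S ∧ rd n l (Function.update z i0 y) i ∉ U i

theorem exists_LP [IsGalois ℚ K] [Fintype V] [Fintype ι] [DecidableEq ι] (hRES : S_RES)
    (hN1F : S_N1F) {A κ : ℝ}
    (hC : Cst V (K ≃ₐ[F] K) (Module.finrank ℚ F) A κ) (hR : Rp F Lf em rp)
    {ev : ((i : ι) → 𝓞 (Lf i)) →+* (V → 𝓞 K)} (hev : IsEv F em rp ev) {n : ι → ℕ}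
    (bs : (i : ι) → Module.Basis (Fin (n i)) ℤ (𝓞 (Lf i)))
    (hn : ∀ i, n i = Module.finrank ℚ F * {t : V | ∃ g : K ≃ₐ[F] K, g • rp i = t}.ncard)
    (T : Set (V → 𝓞 K)) {l : ℕ} (hl : l.Prime) (hl2 : l ≠ 2)
    (hsq : Squarefree (Ideal.span {(l : 𝓞 K)})) (hspl : N1 K l ≠ Module.finrank ℚ K → N1 K l = 0)
    (hfr : ∃ (P : Type) (_ : Fintype P) (v : P → HeightOneSpectrum (𝓞 F))
      (w : P → HeightOneSpectrum (𝓞 K)) (q : P → ℕ) (φ : P → (K ≃ₐ[F] K)), Frm l v w q φ)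
    (hloc : ∀ (w : HeightOneSpectrum (𝓞 K)) (φ : K ≃ₐ[F] K), Abv w l → Fb w l φ → Loc w l φ T) :
    ∃ (Om : Set (Vm n l)) (U : (i : ι) → Set (Fin (n i) → ZMod l)) (I : Finset ι → Vm n l → Prop),
      LP hR bs ev T A κ l Om U I := by
  classical
  obtain ⟨P, _, v, w, q, φ, hF⟩ := hfr
  obtain ⟨R, hinj, himg, hred, hcmp⟩ := hRES F K V ι Lf em rp hR ev hev n bs l hl hsq P v w q φ hF
  have hn1 := hN1F F K V ι Lf em rp hR l hl hsq P v w q φ hF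
  have h : LD bs rp ev l v w q φ R := ⟨hl, hl2, hF, hinj, himg, hred, hcmp⟩
  have hlo : ∀ p, q p = l → Loc (w p) l (φ p) T := by
    intro p hp
    refine hloc (w p) (φ p) (h.abw p) ?_
    have := hF.fb p
    rwa [hp] at this
  have hPne : Nonempty P := by
    by_contra hcon
    haveI := not_nonempty_iff.1 hcon
    have h1 := hF.prod
    rw [Finset.univ_eq_empty, Finset.prod_empty] at h1
    have h2 : 1 < l ^ Module.finrank ℚ F :=
      Nat.one_lt_pow (Module.finrank_pos (R := ℚ) (M := F)).ne' hl.one_lt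
    omega
  obtain ⟨p0⟩ := hPne
  refine ⟨OmR T q φ R, UR (F := F) rp R, fun S z => ∃ p0 : P, ∀ y ∈ OmR T q φ R,
      (∀ i, i ∉ S → y i = z i) → R y p0 0 ≠ 0,
    { unit := h.unit hR T
      cU := h.cU hR
      nm := h.nm hev
      n1 := ?_
      n0 := ?_
      split := hspl
      dens := fun S hS z hz => (h.dens hC hR hlo hn hn1 S hS z hz).1
      good := fun hs S hS hbad z hz =>
        (h.dens hC hR hlo hn hn1 S hS z hz).2.1
          (fun p => ⟨(hF.spl hs p).1, (hF.spl hs p).2.1⟩) hbad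
      bad := fun hs S hS hbad z hz hinc => by
        obtain ⟨p1, hp1⟩ := hinc
        exact (h.dens hC hR hlo hn hn1 S hS z hz).2.2
          (fun p => ⟨(hF.spl hs p).1, (hF.spl hs p).2.1⟩) hbad p1 hp1
      mem := fun x hx => h.memT hlo x hx
      chr := fun hs S i0 hi0 χ hχ hχ0 =>
        h.chr hR hev hlo (hF.spl hs) p0 S i0 hi0 χ hχ hχ0 }⟩
  · intro i
    rw [hn1 i]
    have h1 : ∑ p ∈ univ.filter (fun p => q p = l),
        {s : V | (∃ g : K ≃ₐ[F] K, g • rp i = s) ∧ φ p • s = s}.ncard ≤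
        Module.finrank ℚ F * Fintype.card V := by
      calc ∑ p ∈ univ.filter (fun p => q p = l),
          {s : V | (∃ g : K ≃ₐ[F] K, g • rp i = s) ∧ φ p • s = s}.ncard ≤
          ∑ p ∈ univ.filter (fun p => q p = l), Fintype.card V := by
            refine Finset.sum_le_sum fun p _ => ?_
            refine (Set.ncard_le_ncard (Set.subset_univ _) (Set.toFinite _)).trans ?_
            rw [Set.ncard_univ, Nat.card_eq_fintype_card]
        _ ≤ Module.finrank ℚ F * Fintype.card V := by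
            rw [Finset.sum_const, smul_eq_mul]
            exact Nat.mul_le_mul_right _ ((Finset.card_le_univ _).trans h.cardP)
    exact_mod_cast h1
  · rw [hF.n1]
    exact_mod_cast (Finset.card_le_univ _).trans h.cardP

end K

end Pool.Agent.Q208.ESN
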